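import Mathlib

namespace Pool.Agent.Results.MP_b6680e_pr.NoFKG

variable {n : ℕ}

/-- add to `S` all vertices joined to `S` by an open edge -/
def grow (ω : Finset (Sym2 (Fin n))) (S : Finset (Fin n)) : Finset (Fin n) :=
  Finset.univ.filter fun w => w ∈ S ∨ ∃ u ∈ S, s(u, w) ∈ ω

/-- the cluster of `v`: vertices within `n` open steps of `v` -/
def clus (ω : Finset (Sym2 (Fin n))) (v : Fin n) : Finset (Fin n) := (grow ω)^[n] {v}

/-- the warm clusters, when `F` is the set of frozen vertices -/
def warm (ω : Finset (Sym2 (Fin n))) (F : Finset (Fin n)) : Finset (Finset (Fin n)) :=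
  (Finset.univ.filter (· ∉ F)).image (clus ω)

variable (G : SimpleGraph (Fin n)) [DecidableRel G.Adj]

/-- closed edges with both endpoints warm -/
def avail (ω : Finset (Sym2 (Fin n))) (F : Finset (Fin n)) : Finset (Sym2 (Fin n)) :=
  G.edgeFinset.filter fun e => e ∉ ω ∧ ∀ v, v ∈ e → v ∉ F

/-- probability that the set of open edges lies in `A` after at most `k` further jumps, stopping
once no edge can open: each available edge opens at rate `1`, each warm cluster freezes at
rate `α` -/
def fin (α : ℚ) (A : Finset (Sym2 (Fin n)) → Prop) [DecidablePred A] :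
    ℕ → Finset (Sym2 (Fin n)) → Finset (Fin n) → ℚ
  | 0, ω, _ => if A ω then 1 else 0
  | k + 1, ω, F => if avail G ω F = ∅ then (if A ω then 1 else 0) else
      (∑ e ∈ avail G ω F, fin α A k (insert e ω) F + α * ∑ C ∈ warm ω F, fin α A k ω (F ∪ C)) /
        ((avail G ω F).card + α * (warm ω F).card)

/-- `μ_{G,α}(A)`: at most `|E| + |V|` jumps are possible -/
def mu (α : ℚ) (A : Finset (Sym2 (Fin n)) → Prop) [DecidablePred A] : ℚ :=
  fin G α A (G.edgeFinset.card + n) ∅ ∅

abbrev St := Finset (Fin 4) × Finset (Sym2 (Fin 4))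

def EL : List (Sym2 (Fin 4)) := [s(0, 1), s(0, 2), s(0, 3), s(1, 2), s(1, 3), s(2, 3)]

def avL (x : St) : List (Sym2 (Fin 4)) := EL.filter fun e => e ∉ x.2 ∧ ∀ v, v ∈ e → v ∉ x.1

def wL (x : St) : List (Finset (Fin 4)) :=
  (((List.finRange 4).filter (· ∉ x.1)).map (clus x.2)).dedup

lemma edge_eq : (⊤ : SimpleGraph (Fin 4)).edgeFinset = EL.toFinset := by decide +kernel

lemma avail_eq (x : St) : avail ⊤ x.2 x.1 = (avL x).toFinset := by
  rw [avail, edge_eq]
  ext e; simp [avL]

lemma avL_nodup (x : St) : (avL x).Nodup := List.Nodup.filter _ (by decide +kernel)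

lemma warm_eq (x : St) : warm x.2 x.1 = (wL x).toFinset := by
  ext C; simp [warm, wL]

variable (α : ℚ) (A : Finset (Sym2 (Fin 4)) → Prop) [DecidablePred A]

def val (k : ℕ) (L : List (St × ℚ)) : ℚ := (L.map fun y => y.2 * fin ⊤ α A k y.1.2 y.1.1).sum

def ins (x : St) (p : ℚ) : List (St × ℚ) → List (St × ℚ)
  | [] => [(x, p)]
  | y :: L => if x = y.1 then (y.1, p + y.2) :: L else y :: ins x p L

lemma val_ins (k : ℕ) (x : St) (p : ℚ) (L : List (St × ℚ)) :
    val α A k (ins x p L) = p * fin ⊤ α A k x.2 x.1 + val α A k L := by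
  induction L with
  | nil => simp [ins, val]
  | cons y L ih =>
    simp only [ins]
    split_ifs with h
    · simp only [val, List.map_cons, List.sum_cons, h]
      ring
    · simp only [val, List.map_cons, List.sum_cons] at ih ⊢
      rw [ih]
      ring

def insL (p : ℚ) (acc : List (St × ℚ)) : List St → List (St × ℚ)
  | [] => acc
  | x :: xs => ins x p (insL p acc xs)

lemma val_insL (k : ℕ) (p : ℚ) (acc : List (St × ℚ)) (xs : List St) :
    val α A k (insL p acc xs) = p * (xs.map fun x => fin ⊤ α A k x.2 x.1).sum + val α A k acc := by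
  induction xs with
  | nil => simp [insL]
  | cons x xs ih => simp only [insL, val_ins, ih, List.map_cons, List.sum_cons]; ring

/-- active states and finished states -/
def adv : List (St × ℚ) → List (St × ℚ) → List (St × ℚ) × List (St × ℚ)
  | [], d => ([], d)
  | y :: L, d =>
    let r := adv L d
    let a := avL y.1
    let w := wL y.1
    let t : ℚ := a.length + α * w.length
    if a = [] then (r.1, y :: r.2) else
      (insL (y.2 / t) (insL (y.2 * α / t) r.1 (w.map fun C => (y.1.1 ∪ C, y.1.2)))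
        (a.map fun e => (y.1.1, insert e y.1.2)), r.2)

lemma val_adv (k : ℕ) (L d : List (St × ℚ)) :
    val α A k (adv α L d).1 + val α A 0 (adv α L d).2 = val α A (k + 1) L + val α A 0 d := by
  induction L with
  | nil => simp [adv, val]
  | cons y L ih =>
    have e : val α A (k + 1) (y :: L) =
      y.2 * fin ⊤ α A (k + 1) y.1.2 y.1.1 + val α A (k + 1) L := by simp [val]
    rw [e, add_assoc, ← ih, fin, avail_eq, warm_eq]
    simp only [adv, List.toFinset_eq_empty_iff]
    by_cases h : avL y.1 = []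
    · simp only [h, if_true, val, List.map_cons, List.sum_cons, fin]
      ring
    · simp only [h, if_false, val_insL, List.map_map]
      rw [List.sum_toFinset _ (avL_nodup _), List.sum_toFinset _ (l := wL y.1) (List.nodup_dedup _),
        List.toFinset_card_of_nodup (avL_nodup _),
        List.toFinset_card_of_nodup (l := wL y.1) (List.nodup_dedup _)]
      simp only [Function.comp_def, wL]
      ring

def run : ℕ → List (St × ℚ) × List (St × ℚ) → List (St × ℚ) × List (St × ℚ)
  | 0, r => r
  | k + 1, r => run k (adv α r.1 r.2)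

lemma val_run (k : ℕ) (r : List (St × ℚ) × List (St × ℚ)) :
    val α A 0 (run α k r).1 + val α A 0 (run α k r).2 = val α A k r.1 + val α A 0 r.2 := by
  induction k generalizing r with
  | zero => rfl
  | succ k ih => rw [run, ih, val_adv]

def R : List (St × ℚ) × List (St × ℚ) := run (1 / 100) 10 ([((∅, ∅), 1)], [])

lemma mu_eq : mu ⊤ (1 / 100) A = val (1 / 100) A 0 R.1 + val (1 / 100) A 0 R.2 := by
  rw [R, val_run, mu, edge_eq]
  simp [val, show EL.toFinset.card + 4 = 10 by decide +kernel]

def A0 (ω : Finset (Sym2 (Fin 4))) : Prop := s(0, 2) ∈ ω ∨ s(0, 3) ∈ ω ∨ s(1, 2) ∈ ω ∨ s(1, 3) ∈ ω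
def B0 (ω : Finset (Sym2 (Fin 4))) : Prop := s(0, 1) ∈ ω ∨ s(2, 3) ∈ ω

instance : DecidablePred A0 := fun ω => by unfold A0; infer_instance
instance : DecidablePred B0 := fun ω => by unfold B0; infer_instance

lemma num : val (1 / 100) (fun ω => A0 ω ∧ B0 ω) 0 R.1 + val (1 / 100) (fun ω => A0 ω ∧ B0 ω) 0 R.2 <
    (val (1 / 100) A0 0 R.1 + val (1 / 100) A0 0 R.2) *
      (val (1 / 100) B0 0 R.1 + val (1 / 100) B0 0 R.2) := by decide +kernel

theorem result : ∃ (n : ℕ) (G : SimpleGraph (Fin n)) (_ : DecidableRel G.Adj) (α : ℚ)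
    (A B : Finset (Sym2 (Fin n)) → Prop) (_ : DecidablePred A) (_ : DecidablePred B),
    0 < α ∧ Monotone A ∧ Monotone B ∧ mu G α (fun ω => A ω ∧ B ω) < mu G α A * mu G α B := by
  refine ⟨4, ⊤, inferInstance, 1 / 100, A0, B0, inferInstance, inferInstance, by norm_num,
    fun a b h => ?_, fun a b h => ?_, ?_⟩
  · exact Or.imp (@h _) (Or.imp (@h _) (Or.imp (@h _) (@h _)))
  · exact Or.imp (@h _) (@h _)
  · rw [mu_eq, mu_eq, mu_eq]
    exact num

end Pool.Agent.Results.MP_b6680e_pr.NoFKG
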